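import Pool.Agent.Helper43.SP.MainE

/-!
MP_3976d4_co, partial answer to Q1: the fixed point conclusion holds for every order-preserving map
for which some prime `p` divides the periods of all but finitely many periodic points.
-/

set_option autoImplicit false

universe u

namespace Pool.Agent.Results.MP_3976d4_co.PrimeToPPeriods

/-- Let `P` be a poset whose chains have bounded size and `s` a special element of `P`. Let `f` be
an order-preserving self-map of `P` and `p` a prime. If only finitely many points `x` satisfy
`f^j x = x` for some `j` not divisible by `p`, then `f` has a fixed point. -/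
theorem result :
    ∀ (P : Type u) [PartialOrder P],
      (∃ n : ℕ, ∀ c : Finset P, IsChain (· ≤ ·) (c : Set P) → c.card ≤ n) →
      ∀ s : P,
        (∀ x : P, (∃ z : P, IsLUB ({s, x} : Set P) z) ∨ (∃ z : P, IsGLB ({s, x} : Set P) z)) →
        (∀ x y : P, x < y → (¬ ∃ z : P, IsGLB ({s, x} : Set P) z) →
          ∀ m : P, IsGLB ({s, y} : Set P) m → ∃ z : P, IsLUB ({m, x} : Set P) z) →
        ∀ f : P → P, Monotone f → ∀ p : ℕ, p.Prime →
          {x : P | ∃ j : ℕ, ¬ p ∣ j ∧ f^[j] x = x}.Finite → ∃ x : P, f x = x := by
  intro P _ hn s h1 h2 f hf p hp hper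
  exact Pool.Agent.Helper43.SP.FK.mainE f s h1 h2 hn hf p hp hper

end Pool.Agent.Results.MP_3976d4_co.PrimeToPPeriods
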